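import Mathlib

/-!
# Disjoint projective copies of a Rédei blocking set in `PG(2, p^3)`

For every prime `p` there is a projectivity `γ` of `PG(2, p^3)` with `B ∩ γ(B) = ∅`.

For `p = 2` one may take `(x₀, x₁, x₂) ↦ (x₂, μ x₁, x₀)` with `μ ≠ 0, 1`.  For odd `p` put
`N(x) = x^(p^2+p+1)` and `k = p^2 - p + 1`.  There is `z ≠ 0, 1` with
`N(z - 1) ≠ N(z^k - 1)`; then `b = (z - 1)/(z^k - 1)` has `b ≠ 0`, `N(b) ≠ 1`, so
`D(y) = b y^k - y` maps nonzero elements to nonzero elements, and it is not injective since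
`D(z) = D(1)`.  Hence some `d ≠ 0` is not a value of `D` on nonzero elements, and the
projectivity `(x₀, x₁, x₂) ↦ (x₁, β x₂, d x₀ + x₁)`, `β^p = b`, has the required property.
-/

namespace Pool.Agent.Results.MP_837a86_co.DisjointCopies

open LinearAlgebra.Projectivization

variable (p : ℕ) (F : Type) [Field F]

/-- the blocking set `B` of `PG(2, F)`, where `F` has `p^3` elements -/
def B : Set (ℙ F (Fin 3 → F)) :=
  {P | (∃ x : F, P = Projectivization.mk F ![1, x, x ^ p] (by simp)) ∨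
    ∃ y : F, y ^ (p ^ 2 + p + 1) = 1 ∧ P = Projectivization.mk F ![0, 1, y] (by simp)}

lemma disj_of (γ : (Fin 3 → F) ≃ₗ[F] (Fin 3 → F))
    (h1 : ∀ x z a : F, a • γ ![1, z, z ^ p] ≠ ![1, x, x ^ p])
    (h2 : ∀ x y a : F, y ^ (p ^ 2 + p + 1) = 1 → a • γ ![0, 1, y] ≠ ![1, x, x ^ p])
    (h3 : ∀ y z a : F, a • γ ![1, z, z ^ p] ≠ ![0, 1, y])
    (h4 : ∀ y y' a : F, y' ^ (p ^ 2 + p + 1) = 1 → a • γ ![0, 1, y'] ≠ ![0, 1, y]) :
    Disjoint (B p F) (Projectivization.map γ.toLinearMap γ.injective '' B p F) := by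
  rw [Set.disjoint_left]
  rintro P hP ⟨Q, hQ, rfl⟩
  rcases hQ with ⟨z, rfl⟩ | ⟨y, hy, rfl⟩ <;> rcases hP with ⟨x, hx⟩ | ⟨y', hy', hx⟩
  · rw [Projectivization.map_mk, Projectivization.mk_eq_mk_iff'] at hx
    obtain ⟨a, ha⟩ := hx
    have ha0 : a ≠ 0 := by
      rintro rfl
      rw [zero_smul] at ha
      exact (LinearEquiv.map_ne_zero_iff γ).mpr (by simp) ha.symm
    apply h1 x z a⁻¹
    rw [inv_smul_eq_iff₀ ha0]
    exact ha.symm
  · rw [Projectivization.map_mk, Projectivization.mk_eq_mk_iff'] at hx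
    obtain ⟨a, ha⟩ := hx
    have ha0 : a ≠ 0 := by
      rintro rfl
      rw [zero_smul] at ha
      exact (LinearEquiv.map_ne_zero_iff γ).mpr (by simp) ha.symm
    apply h3 y' z a⁻¹
    rw [inv_smul_eq_iff₀ ha0]
    exact ha.symm
  · rw [Projectivization.map_mk, Projectivization.mk_eq_mk_iff'] at hx
    obtain ⟨a, ha⟩ := hx
    have ha0 : a ≠ 0 := by
      rintro rfl
      rw [zero_smul] at ha
      exact (LinearEquiv.map_ne_zero_iff γ).mpr (by simp) ha.symm
    apply h2 x y a⁻¹ hy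
    rw [inv_smul_eq_iff₀ ha0]
    exact ha.symm
  · rw [Projectivization.map_mk, Projectivization.mk_eq_mk_iff'] at hx
    obtain ⟨a, ha⟩ := hx
    have ha0 : a ≠ 0 := by
      rintro rfl
      rw [zero_smul] at ha
      exact (LinearEquiv.map_ne_zero_iff γ).mpr (by simp) ha.symm
    apply h4 y' y a⁻¹ hy
    rw [inv_smul_eq_iff₀ ha0]
    exact ha.symm

/-- the map `(v₀, v₁, v₂) ↦ (v₂, μ v₁, v₀)` -/
def γ₂ (μ : F) (hμ : μ ≠ 0) : (Fin 3 → F) ≃ₗ[F] (Fin 3 → F) where
  toFun v := ![v 2, μ * v 1, v 0]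
  invFun w := ![w 2, μ⁻¹ * w 1, w 0]
  map_add' v w := by
    ext i; fin_cases i <;> simp [mul_add]
  map_smul' a v := by
    ext i; fin_cases i <;> simp
    ring
  left_inv v := by
    ext i; fin_cases i <;> simp [hμ]
  right_inv v := by
    ext i; fin_cases i <;> simp [hμ]

/-- the map `(v₀, v₁, v₂) ↦ (v₁, β v₂, d v₀ + v₁)` -/
def γ₁ (β d : F) (hβ : β ≠ 0) (hd : d ≠ 0) : (Fin 3 → F) ≃ₗ[F] (Fin 3 → F) where
  toFun v := ![v 1, β * v 2, d * v 0 + v 1]
  invFun w := ![d⁻¹ * (w 2 - w 0), w 0, β⁻¹ * w 1]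
  map_add' v w := by
    ext i; fin_cases i <;> simp [mul_add]
    ring
  map_smul' a v := by
    ext i; fin_cases i <;> simp
    · ring
    · ring
  left_inv v := by
    ext i; fin_cases i <;> simp [hβ, hd]
  right_inv v := by
    ext i; fin_cases i <;> simp [hβ, hd]

lemma case_two [Finite F] (hF : Nat.card F = 2 ^ 3) :
    ∃ γ : (Fin 3 → F) ≃ₗ[F] (Fin 3 → F),
      Disjoint (B 2 F) (Projectivization.map γ.toLinearMap γ.injective '' B 2 F) := by
  classical
  have : Fintype F := Fintype.ofFinite F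
  have hF' : Fintype.card F = 2 ^ 3 := by rw [← Nat.card_eq_fintype_card, hF]
  have : Fact (Nat.Prime 2) := ⟨Nat.prime_two⟩
  have hch : CharP F 2 := charP_of_card_eq_prime_pow hF'
  obtain ⟨μ, hμ⟩ : ∃ μ : F, μ ∉ ({0, 1} : Finset F) := by
    by_contra h
    push Not at h
    have h1 : (Finset.univ : Finset F).card ≤ ({0, 1} : Finset F).card :=
      Finset.card_le_card (fun x _ => h x)
    have h2 : ({0, 1} : Finset F).card ≤ 2 := Finset.card_le_two
    rw [Finset.card_univ, hF'] at h1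
    omega
  simp only [Finset.mem_insert, Finset.mem_singleton, not_or] at hμ
  obtain ⟨hμ0, hμ1⟩ := hμ
  refine ⟨γ₂ F μ hμ0, disj_of 2 F _ ?_ ?_ ?_ ?_⟩
  · intro x z a h
    have e0 : a * z ^ 2 = 1 := by simpa [γ₂] using congrFun h 0
    have e1 : a * (μ * z) = x := by simpa [γ₂] using congrFun h 1
    have e2 : a = x ^ 2 := by simpa [γ₂] using congrFun h 2
    have h3 : μ ^ 2 = 1 := by
      have : x ^ 2 = a ^ 2 * μ ^ 2 * z ^ 2 := by rw [← e1]; ring
      have ha : a ≠ 0 := by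
        rintro rfl
        simp at e0
      have h4 : a * (a * z ^ 2 * μ ^ 2) = a * 1 := by rw [mul_one]; nth_rewrite 3 [e2]; rw [this]; ring
      have h5 := mul_left_cancel₀ ha h4
      rwa [e0, one_mul] at h5
    have h6 : (μ - 1) ^ 2 = 0 := by
      have := sub_pow_char μ 1 (p := 2)
      rw [this, h3]
      simp
    have h7 : μ - 1 = 0 := by simpa using h6
    exact hμ1 (sub_eq_zero.mp h7)
  · intro x y a _ h
    have e0 : a * y = 1 := by simpa [γ₂] using congrFun h 0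
    have e1 : a * μ = x := by simpa [γ₂] using congrFun h 1
    have e2 : 0 = x ^ 2 := by simpa [γ₂] using congrFun h 2
    have hx : x = 0 := by simpa using e2.symm
    rw [hx] at e1
    rcases mul_eq_zero.mp e1 with h | h
    · rw [h] at e0; simp at e0
    · exact hμ0 h
  · intro y z a h
    have e0 : a * z ^ 2 = 0 := by simpa [γ₂] using congrFun h 0
    have e1 : a * (μ * z) = 1 := by simpa [γ₂] using congrFun h 1
    rcases mul_eq_zero.mp e0 with h | h
    · rw [h] at e1; simp at e1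
    · have : z = 0 := by simpa using h
      rw [this] at e1; simp at e1
  · intro y y' a hy' h
    have e0 : a * y' = 0 := by simpa [γ₂] using congrFun h 0
    have e1 : a * μ = 1 := by simpa [γ₂] using congrFun h 1
    rcases mul_eq_zero.mp e0 with h | h
    · rw [h] at e1; simp at e1
    · rw [h] at hy'; simp at hy'

open Polynomial in
lemma natDegree_aux (m n : ℕ) (h : n < m) : ((X : F[X]) ^ m - X ^ n).natDegree = m := by
  rw [natDegree_sub_eq_left_of_natDegree_lt]
  · simp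
  · simpa using h

open Polynomial in
lemma exists_z_large [Fintype F] (hp : 5 ≤ p) (hF : Fintype.card F = p ^ 3) :
    ∃ z : F, z ^ (p ^ 2 + p + 1) * ((z ^ p ^ 2 - 1) * (z ^ p - 1) * (z - 1)) ≠
      (z ^ (p ^ 2 + 1) - z ^ p) * (z ^ (p + 1) - z ^ p ^ 2) * (z ^ (p ^ 2 + p) - z) := by
  by_contra hcon
  push Not at hcon
  let P1 : F[X] := (X ^ (p ^ 2 + 1) - X ^ p) * (X ^ (p + 1) - X ^ p ^ 2) * (X ^ (p ^ 2 + p) - X ^ 1)
  let P2 : F[X] := X ^ (p ^ 2 + p + 1) * ((X ^ p ^ 2 - X ^ 0) * (X ^ p - X ^ 0) * (X ^ 1 - X ^ 0))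
  have hp2 : 5 * p ≤ p ^ 2 := by nlinarith
  have hp3 : 5 * p ^ 2 ≤ p ^ 3 := by
    have : p ^ 3 = p * p ^ 2 := by ring
    rw [this]
    exact Nat.mul_le_mul_right _ hp
  have hne : ∀ m n : ℕ, n < m → ((X : F[X]) ^ m - X ^ n) ≠ 0 := by
    intro m n h h0
    have := natDegree_aux F m n h
    rw [h0] at this
    simp at this
    omega
  have d1 : P1.natDegree = 3 * p ^ 2 + p + 1 := by
    have e2 : ((X : F[X]) ^ (p + 1) - X ^ p ^ 2) = - (X ^ p ^ 2 - X ^ (p + 1)) := by ring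
    show ((X ^ (p ^ 2 + 1) - X ^ p) * (X ^ (p + 1) - X ^ p ^ 2) *
      (X ^ (p ^ 2 + p) - X ^ 1) : F[X]).natDegree = _
    rw [natDegree_mul, natDegree_mul, e2, natDegree_neg, natDegree_aux, natDegree_aux,
      natDegree_aux]
    · ring
    · omega
    · omega
    · omega
    · exact hne _ _ (by omega)
    · rw [e2]; exact neg_ne_zero.mpr (hne _ _ (by omega))
    · rw [e2]; exact mul_ne_zero (hne _ _ (by omega)) (neg_ne_zero.mpr (hne _ _ (by omega)))
    · exact hne _ _ (by omega)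
  have d2 : P2.natDegree < 3 * p ^ 2 + p + 1 := by
    have : P2.natDegree ≤ (p ^ 2 + p + 1) + ((p ^ 2 + p) + 1) := by
      refine natDegree_mul_le.trans ?_
      rw [natDegree_X_pow]
      refine Nat.add_le_add_left ?_ _
      refine natDegree_mul_le.trans ?_
      refine Nat.add_le_add (natDegree_mul_le.trans ?_) ?_
      · rw [natDegree_aux _ _ _ (by omega), natDegree_aux _ _ _ (by omega)]
      · rw [natDegree_aux _ _ _ (by omega)]
    omega
  have d3 : (P1 - P2).natDegree = 3 * p ^ 2 + p + 1 := by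
    rw [natDegree_sub_eq_left_of_natDegree_lt (by rw [d1]; exact d2), d1]
  have h0 : P1 - P2 = 0 := by
    apply eq_zero_of_natDegree_lt_card_of_eval_eq_zero (P1 - P2) (f := fun z : F => z)
      Function.injective_id
    · intro z
      have := hcon z
      simp only [P1, P2, eval_sub, eval_mul, eval_pow, eval_X, pow_zero, pow_one, eval_one]
      rw [this]
      ring
    · rw [d3, hF]
      omega
  rw [h0] at d3
  simp at d3

open Polynomial in
lemma exists_z_three [Fintype F] (hF : Fintype.card F = 3 ^ 3) :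
    ∃ z : F, z ^ (3 ^ 2 + 3 + 1) * ((z ^ 3 ^ 2 - 1) * (z ^ 3 - 1) * (z - 1)) ≠
      (z ^ (3 ^ 2 + 1) - z ^ 3) * (z ^ (3 + 1) - z ^ 3 ^ 2) * (z ^ (3 ^ 2 + 3) - z) := by
  by_contra hcon
  push Not at hcon
  let Q : F[X] := X ^ 25 + X ^ 24 + X ^ 23 - X ^ 22 + X ^ 20 - X ^ 19 + X ^ 17 - X ^ 16 - X ^ 15
    - X ^ 14 + X ^ 8 - X ^ 5
  have hd : Q.natDegree = 25 := by
    show (X ^ 25 + X ^ 24 + X ^ 23 - X ^ 22 + X ^ 20 - X ^ 19 + X ^ 17 - X ^ 16 - X ^ 15
      - X ^ 14 + X ^ 8 - X ^ 5 : F[X]).natDegree = 25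
    compute_degree!
  have h0 : Q = 0 := by
    apply eq_zero_of_natDegree_lt_card_of_eval_eq_zero Q (f := fun z : F => z)
      Function.injective_id
    · intro z
      have h1 := hcon z
      have h2 : z ^ 27 = z := by
        have := FiniteField.pow_card z
        rwa [hF] at this
      simp only [Q, eval_sub, eval_add, eval_pow, eval_X]
      norm_num at h1
      linear_combination -h1 + z ^ 4 * h2
    · rw [hd, hF]
      norm_num
  rw [h0] at hd
  simp at hd

lemma exists_z [Fintype F] (hp : p.Prime) (hp2 : p ≠ 2) (hF : Fintype.card F = p ^ 3) :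
    ∃ z : F, z ^ (p ^ 2 + p + 1) * ((z ^ p ^ 2 - 1) * (z ^ p - 1) * (z - 1)) ≠
      (z ^ (p ^ 2 + 1) - z ^ p) * (z ^ (p + 1) - z ^ p ^ 2) * (z ^ (p ^ 2 + p) - z) := by
  by_cases h3 : p = 3
  · subst h3
    exact exists_z_three F hF
  · have h2 := hp.two_le
    have h4 : p ≠ 4 := by
      rintro rfl
      exact absurd hp (by norm_num)
    exact exists_z_large p F (by omega) hF

lemma case_odd [Finite F] (hp : p.Prime) (hp2 : p ≠ 2) (hF : Nat.card F = p ^ 3) :
    ∃ γ : (Fin 3 → F) ≃ₗ[F] (Fin 3 → F),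
      Disjoint (B p F) (Projectivization.map γ.toLinearMap γ.injective '' B p F) := by
  classical
  have : Fintype F := Fintype.ofFinite F
  have hF' : Fintype.card F = p ^ 3 := by rw [← Nat.card_eq_fintype_card, hF]
  have : Fact p.Prime := ⟨hp⟩
  have hch : CharP F p := charP_of_card_eq_prime_pow hF'
  have hq : ∀ x : F, x ^ p ^ 3 = x := by
    intro x
    have := FiniteField.pow_card x
    rwa [hF'] at this
  -- the exponent `k`
  obtain ⟨k, hk⟩ : ∃ k : ℕ, k + p = p ^ 2 + 1 := by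
    refine ⟨p ^ 2 + 1 - p, ?_⟩
    have : p ≤ p ^ 2 := by nlinarith [hp.one_lt]
    omega
  have hk1 : k * p + p ^ 2 = p ^ 3 + p := by
    have : (k + p) * p = (p ^ 2 + 1) * p := by rw [hk]
    nlinarith
  have hk2 : k * p ^ 2 + p ^ 3 = p ^ 3 * p + p ^ 2 := by
    have : (k + p) * p ^ 2 = (p ^ 2 + 1) * p ^ 2 := by rw [hk]
    nlinarith
  have hk3 : k * (p + 1) = p ^ 3 + 1 := by nlinarith
  obtain ⟨z, hz⟩ := exists_z p F hp hp2 hF'
  have hpp : p ≠ 0 := hp.ne_zero
  have hz0 : z ≠ 0 := by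
    rintro rfl
    apply hz
    simp [hpp]
  have hz1 : z ≠ 1 := by
    rintro rfl
    apply hz
    simp
  -- the norm
  have hN : ∀ x : F, x ^ (p ^ 2 + p + 1) = x ^ p ^ 2 * x ^ p * x := by
    intro x
    rw [pow_succ, pow_add]
  have hNsub : ∀ x : F, (x - 1) ^ (p ^ 2 + p + 1) = (x ^ p ^ 2 - 1) * (x ^ p - 1) * (x - 1) := by
    intro x
    rw [hN, sub_pow_char_pow, sub_pow_char]
    simp
  have e1 : z ^ k * z ^ p = z ^ (p ^ 2 + 1) := by rw [← pow_add, hk]
  have e2 : (z ^ k) ^ p * z ^ p ^ 2 = z ^ (p + 1) := by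
    rw [← pow_mul, ← pow_add, hk1, pow_add, hq, pow_succ]
    ring
  have e3 : (z ^ k) ^ p ^ 2 * z = z ^ (p ^ 2 + p) := by
    have : (z ^ k) ^ p ^ 2 * z ^ p ^ 3 = z ^ (p ^ 2 + p) := by
      rw [← pow_mul, ← pow_add, hk2, pow_add, pow_mul, hq, pow_add]
      ring
    rwa [hq] at this
  have hne : (z - 1) ^ (p ^ 2 + p + 1) ≠ (z ^ k - 1) ^ (p ^ 2 + p + 1) := by
    intro h
    apply hz
    rw [← hNsub, h, hNsub, hN z, ← e1, ← e2, ← e3]
    ring
  have hzk : z ^ k - 1 ≠ 0 := by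
    intro h
    have h1 : z ^ k = 1 := sub_eq_zero.mp h
    have h2 : z ^ (p ^ 3 + 1) = 1 := by rw [← hk3, pow_mul, h1, one_pow]
    rw [pow_succ, hq] at h2
    have h3 : (z - 1) * (z + 1) = 0 := by linear_combination h2
    rcases mul_eq_zero.mp h3 with h4 | h4
    · exact hz1 (sub_eq_zero.mp h4)
    · have h5 : z = -1 := eq_neg_of_add_eq_zero_left h4
      have hodd : Odd p := hp.odd_of_ne_two hp2
      have hkodd : Odd k := by
        obtain ⟨m, hm⟩ := hodd
        refine ⟨2 * m ^ 2 + m, ?_⟩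
        rw [hm] at hk
        nlinarith
      rw [h5, hkodd.neg_one_pow] at h1
      have h7 : (2 : F) = 0 := by linear_combination -h1
      have h8 : (p : ℕ) ∣ 2 := by
        rw [← CharP.cast_eq_zero_iff F p 2]
        exact_mod_cast h7
      have h9 := Nat.le_of_dvd (by norm_num) h8
      have := hp.two_le
      omega
  -- the element `b`
  set b : F := (z - 1) / (z ^ k - 1) with hb
  have hbz : b * (z ^ k - 1) = z - 1 := div_mul_cancel₀ _ hzk
  have hb0 : b ≠ 0 := div_ne_zero (sub_ne_zero.mpr hz1) hzk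
  have hbN : b ^ (p ^ 2 + p + 1) ≠ 1 := by
    intro h
    apply hne
    rw [← hbz, mul_pow, h, one_mul]
  -- the map `D`
  have hD0 : ∀ y : F, y ≠ 0 → b * y ^ k - y ≠ 0 := by
    intro y hy h
    apply hbN
    have h1 : b * y ^ k = y := sub_eq_zero.mp h
    have h2 : b * (y ^ k * y ^ p) = y * y ^ p := by
      rw [← mul_assoc, h1]
    rw [← pow_add, hk, pow_succ, ← mul_assoc, mul_comm y (y ^ p)] at h2
    have h3 : b * y ^ p ^ 2 = y ^ p := mul_right_cancel₀ hy h2
    have h4 : ∀ x : F, (x ^ p) ^ (p ^ 2 + p + 1) = x ^ (p ^ 2 + p + 1) := by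
      intro x
      rw [← pow_mul]
      have : p * (p ^ 2 + p + 1) = p ^ 3 + (p ^ 2 + p) := by ring
      rw [this, pow_add, hq, pow_succ]
      ring
    have h5 : (y ^ p ^ 2) ^ (p ^ 2 + p + 1) = y ^ (p ^ 2 + p + 1) := by
      have : y ^ p ^ 2 = (y ^ p) ^ p := by rw [← pow_mul, sq]
      rw [this, h4, h4]
    have h6 := congrArg (fun x => x ^ (p ^ 2 + p + 1)) h3
    simp only [mul_pow] at h6
    rw [h5, h4] at h6
    have h7 : y ^ (p ^ 2 + p + 1) ≠ 0 := pow_ne_zero _ hy
    exact mul_right_cancel₀ h7 (h6.trans (one_mul _).symm)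
  obtain ⟨d, hd0, hd⟩ : ∃ d : F, d ≠ 0 ∧ ∀ y : F, y ≠ 0 → b * y ^ k - y ≠ d := by
    by_contra hcon
    push Not at hcon
    let f : {y : F // y ≠ 0} → {y : F // y ≠ 0} := fun y => ⟨b * y.1 ^ k - y.1, hD0 y.1 y.2⟩
    have hsurj : Function.Surjective f := by
      rintro ⟨d, hd⟩
      obtain ⟨y, hy, hy2⟩ := hcon d hd
      exact ⟨⟨y, hy⟩, Subtype.ext hy2⟩
    have hinj : Function.Injective f := Finite.injective_iff_surjective.mpr hsurj
    have : f ⟨z, hz0⟩ = f ⟨1, one_ne_zero⟩ := by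
      apply Subtype.ext
      show b * z ^ k - z = b * 1 ^ k - 1
      rw [one_pow]
      linear_combination hbz
    have h1 := congrArg Subtype.val (hinj this)
    exact hz1 h1
  -- the `p`-th root of `b`
  set β : F := b ^ p ^ 2 with hβ
  have hβb : β ^ p = b := by
    rw [hβ, ← pow_mul]
    have : p ^ 2 * p = p ^ 3 := by ring
    rw [this, hq]
  have hβ0 : β ≠ 0 := pow_ne_zero _ hb0
  have hβN : β ^ (p ^ 2 + p + 1) ≠ 1 := by
    intro h
    apply hbN
    rw [← hβb, ← pow_mul, mul_comm, pow_mul, h, one_pow]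
  refine ⟨γ₁ F β d hβ0 hd0, disj_of p F _ ?_ ?_ ?_ ?_⟩
  · intro x w a h
    have f0 : a * w = 1 := by simpa [γ₁] using congrFun h 0
    have f1 : a * (β * w ^ p) = x := by simpa [γ₁] using congrFun h 1
    have f2 : a * (d + w) = x ^ p := by simpa [γ₁] using congrFun h 2
    have hw : w ≠ 0 := by
      rintro rfl
      simp at f0
    have ha : a ≠ 0 := by
      rintro rfl
      simp at f0
    apply hd w hw
    -- `x ^ p = a ^ p * b * w ^ (p ^ 2)`
    have g1 : x ^ p = a ^ p * (b * w ^ p ^ 2) := by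
      rw [← f1, mul_pow, mul_pow, hβb, ← pow_mul, ← sq]
    have g2 : a ^ p * w ^ p = 1 := by rw [← mul_pow, f0, one_pow]
    have g3 : w ^ k * w ^ p = w ^ p ^ 2 * w := by rw [← pow_add, hk, pow_succ]
    have g4 : w ^ p * w * (a * (d + w)) = w ^ p * w * (a ^ p * (b * w ^ p ^ 2)) := by
      rw [f2, g1]
    have g5 : w ^ p * (d + w) = w ^ p * (b * w ^ k) := by
      calc w ^ p * (d + w) = (w ^ p * (d + w)) * (a * w) := by rw [f0, mul_one]
        _ = w ^ p * w * (a * (d + w)) := by ring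
        _ = w ^ p * w * (a ^ p * (b * w ^ p ^ 2)) := g4
        _ = (a ^ p * w ^ p) * (b * (w ^ p ^ 2 * w)) := by ring
        _ = b * (w ^ k * w ^ p) := by rw [g2, one_mul, g3]
        _ = w ^ p * (b * w ^ k) := by ring
    have g6 := mul_left_cancel₀ (pow_ne_zero p hw) g5
    linear_combination -g6
  · intro x y a hy h
    have f0 : a = 1 := by simpa [γ₁] using congrFun h 0
    have f1 : a * (β * y) = x := by simpa [γ₁] using congrFun h 1
    have f2 : a = x ^ p := by simpa [γ₁] using congrFun h 2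
    rw [f0] at f2 f1
    have g1 : (x - 1) ^ p = 0 := by
      rw [sub_pow_char, ← f2]
      simp
    have g2 : x = 1 := sub_eq_zero.mp (pow_eq_zero_iff hpp |>.mp g1)
    rw [one_mul, g2] at f1
    apply hβN
    have g3 := congrArg (fun t => t ^ (p ^ 2 + p + 1)) f1
    simp only [mul_pow, one_pow] at g3
    rwa [hy, mul_one] at g3
  · intro y w a h
    have f0 : a * w = 0 := by simpa [γ₁] using congrFun h 0
    have f1 : a * (β * w ^ p) = 1 := by simpa [γ₁] using congrFun h 1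
    rcases mul_eq_zero.mp f0 with h | h
    · rw [h] at f1; simp at f1
    · rw [h] at f1; simp [hpp] at f1
  · intro y y' a _ h
    have f0 : a = 0 := by simpa [γ₁] using congrFun h 0
    have f1 : a * (β * y') = 1 := by simpa [γ₁] using congrFun h 1
    rw [f0] at f1
    simp at f1

/-- **Disjoint projective copies.** For every prime `p` and every field `F` with `p ^ 3`
elements there is a projectivity `γ` of `PG(2, F)` such that `B` and `γ(B)` are disjoint. -/
theorem result (p : ℕ) (hp : p.Prime) (F : Type) [Field F] (hF : Nat.card F = p ^ 3) :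
    ∃ γ : (Fin 3 → F) ≃ₗ[F] (Fin 3 → F),
      Disjoint (B p F) (Projectivization.map γ.toLinearMap γ.injective '' B p F) := by
  have : Finite F := by
    apply Nat.finite_of_card_ne_zero
    rw [hF]
    exact pow_ne_zero _ hp.ne_zero
  by_cases h2 : p = 2
  · subst h2
    exact case_two F hF
  · exact case_odd p F hp h2 hF

end Pool.Agent.Results.MP_837a86_co.DisjointCopies
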